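import Pool.Agent.Helper60_AK.StmtF

/-!
# AK part F: common lemmas for E4a and E4
-/

set_option autoImplicit false

namespace Pool.Agent.AK.H51

open Complex MeasureTheory

/-! ### derivatives on open sets -/

theorem smul_bd {E F : Type*} [NormedAddCommGroup E] [NormedSpace ℝ E] [NormedAddCommGroup F]
    [NormedSpace ℝ F] [NormedSpace ℂ F] [IsScalarTower ℝ ℂ F] {s : Set E} (hs : IsOpen s)
    {u : E → ℂ} {v : E → F} {n : ℕ}
    (hu : ContDiffOn ℝ (n : WithTop ℕ∞) u s) (hv : ContDiffOn ℝ (n : WithTop ℕ∞) v s) {x : E}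
    (hx : x ∈ s) {j : ℕ} (hj : j ≤ n) {a b : ℝ} (ha : ∀ i ≤ j, ‖iteratedFDeriv ℝ i u x‖ ≤ a)
    (hb : ∀ i ≤ j, ‖iteratedFDeriv ℝ i v x‖ ≤ b) :
    ‖iteratedFDeriv ℝ j (fun y => u y • v y) x‖ ≤ 2 ^ j * (a * b) := by
  have h1 := norm_iteratedFDerivWithin_smul_le hu hv hs.uniqueDiffOn hx
    (n := j) (by exact_mod_cast hj)
  rw [iteratedFDerivWithin_of_isOpen j hs hx] at h1
  refine h1.trans ?_
  have ha0 : 0 ≤ a := (norm_nonneg _).trans (ha 0 (Nat.zero_le _))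
  have h2 : ∀ i ∈ Finset.range (j + 1), ((j.choose i : ℕ) : ℝ) *
      ‖iteratedFDerivWithin ℝ i u s x‖ * ‖iteratedFDerivWithin ℝ (j - i) v s x‖ ≤
      ((j.choose i : ℕ) : ℝ) * (a * b) := by
    intro i hi
    rw [Finset.mem_range] at hi
    rw [iteratedFDerivWithin_of_isOpen i hs hx, iteratedFDerivWithin_of_isOpen (j - i) hs hx,
      mul_assoc]
    refine mul_le_mul_of_nonneg_left ?_ (Nat.cast_nonneg _)
    exact mul_le_mul (ha i (by omega)) (hb (j - i) (by omega)) (norm_nonneg _) ha0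
  refine (Finset.sum_le_sum h2).trans ?_
  rw [← Finset.sum_mul]
  have h3 := Nat.sum_range_choose j
  have h4 : (∑ i ∈ Finset.range (j + 1), ((j.choose i : ℕ) : ℝ)) = 2 ^ j := by
    exact_mod_cast h3
  rw [h4]

theorem mul_bd {E : Type*} [NormedAddCommGroup E] [NormedSpace ℝ E] {s : Set E} (hs : IsOpen s)
    {u v : E → ℂ} {n : ℕ}
    (hu : ContDiffOn ℝ (n : WithTop ℕ∞) u s) (hv : ContDiffOn ℝ (n : WithTop ℕ∞) v s) {x : E}
    (hx : x ∈ s) {j : ℕ} (hj : j ≤ n) {a b : ℝ} (ha : ∀ i ≤ j, ‖iteratedFDeriv ℝ i u x‖ ≤ a)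
    (hb : ∀ i ≤ j, ‖iteratedFDeriv ℝ i v x‖ ≤ b) :
    ‖iteratedFDeriv ℝ j (fun y => u y * v y) x‖ ≤ 2 ^ j * (a * b) :=
  smul_bd hs hu hv hx hj ha hb

/-- congruence on an open set -/
theorem iter_congr {E F : Type*} [NormedAddCommGroup E] [NormedSpace ℝ E] [NormedAddCommGroup F]
    [NormedSpace ℝ F] {s : Set E} (hs : IsOpen s) {u v : E → F} (h : ∀ x ∈ s, u x = v x) {x : E}
    (hx : x ∈ s) (j : ℕ) : iteratedFDeriv ℝ j u x = iteratedFDeriv ℝ j v x := by
  have h1 : u =ᶠ[nhds x] v := by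
    filter_upwards [hs.mem_nhds hx] with y hy
    exact h y hy
  exact (h1.iteratedFDeriv ℝ j).self_of_nhds

/-- uniform bounds of derivatives on a compact set -/
theorem bdd_of_cs {V : Set C2} (hV : IsCompact (closure V)) {s : ℕ} {u : C2 → ℂ}
    (hu : CS V s u) : ∃ C : ℝ, 0 ≤ C ∧ ∀ j ≤ s, ∀ q ∈ V, ‖iteratedFDeriv ℝ j u q‖ ≤ C := by
  obtain ⟨U, hU, hVU, hd⟩ := hu
  have h1 : ∀ j, ∃ C : ℝ, j ≤ s → ∀ q ∈ closure V, ‖iteratedFDeriv ℝ j u q‖ ≤ C := by
    intro j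
    by_cases hj : j ≤ s
    · have hc : ContinuousOn (iteratedFDeriv ℝ j u) (closure V) :=
        (ContinuousOn.continuousOn_iteratedFDeriv hd hU (by exact_mod_cast hj)).mono hVU
      obtain ⟨C, hC⟩ := hV.exists_bound_of_continuousOn hc
      exact ⟨C, fun _ => hC⟩
    · exact ⟨0, fun h => absurd h hj⟩
  choose C hC using h1
  refine ⟨∑ j ∈ Finset.range (s + 1), |C j|, Finset.sum_nonneg fun _ _ => abs_nonneg _,
    fun j hj q hq => ?_⟩
  refine (hC j hj q (subset_closure hq)).trans ((le_abs_self _).trans ?_)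
  exact Finset.single_le_sum (f := fun j => |C j|) (fun _ _ => abs_nonneg _)
    (Finset.mem_range.2 (by omega))

/-! ### functions of class `C^s` near the closure -/

theorem cs_const (V : Set C2) (s : ℕ) (a : ℂ) : CS V s (fun _ => a) :=
  ⟨Set.univ, isOpen_univ, Set.subset_univ _, contDiffOn_const⟩

theorem cs_mul {V : Set C2} {s : ℕ} {u v : C2 → ℂ} (hu : CS V s u) (hv : CS V s v) :
    CS V s (fun p => u p * v p) := by
  obtain ⟨U, h1, h2, h3⟩ := hu
  obtain ⟨U', h1', h2', h3'⟩ := hv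
  exact ⟨U ∩ U', h1.inter h1', Set.subset_inter h2 h2',
    (h3.mono Set.inter_subset_left).mul (h3'.mono Set.inter_subset_right)⟩

theorem cs_sum {V : Set C2} {s : ℕ} {ι : Type*} (S : Finset ι) {u : ι → C2 → ℂ}
    (hu : ∀ i ∈ S, CS V s (u i)) : CS V s (fun p => ∑ i ∈ S, u i p) := by
  classical
  induction S using Finset.induction_on with
  | empty => simpa using cs_const V s 0
  | insert i S hi ih =>
    obtain ⟨U, h1, h2, h3⟩ := hu i (Finset.mem_insert_self _ _)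
    obtain ⟨U', h1', h2', h3'⟩ := ih fun j hj => hu j (Finset.mem_insert_of_mem hj)
    refine ⟨U ∩ U', h1.inter h1', Set.subset_inter h2 h2', ?_⟩
    simp only [Finset.sum_insert hi]
    exact (h3.mono Set.inter_subset_left).add (h3'.mono Set.inter_subset_right)

theorem cs_exp {V : Set C2} {s : ℕ} {u : C2 → ℂ} (hu : CS V s u) :
    CS V s (fun p => exp (u p)) := by
  obtain ⟨U, h1, h2, h3⟩ := hu
  refine ⟨U, h1, h2, ?_⟩
  have h4 : ContDiff ℝ (s : WithTop ℕ∞) (fun z : ℂ => exp z) := Complex.contDiff_exp (𝕜 := ℝ)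
  exact h4.comp_contDiffOn h3

theorem cs_qf {V : Set C2} {s : ℕ} {c : ℕ → C2 → ℂ} (hc : ∀ k, CS V s (c k)) (j : ℕ) :
    ∀ k, CS V s (qf c j k) := by
  induction j with
  | zero =>
    intro k
    exact cs_const V s _
  | succ j ih =>
    intro k
    show CS V s (fun p => (1 / ((j : ℂ) + 1)) *
      ∑ i ∈ Finset.Icc 1 k, c i p * qf c j (k - i) p)
    exact cs_mul (cs_const V s _) (cs_sum _ fun i _ => cs_mul (hc i) (ih _))

/-! ### the collar -/

theorem veps_open {Ω : Set C2} {ρ : C2 → ℝ} {f : C2 → ℂ} {k0 : ℕ} {B : ℝ} {V : Set C2}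
    {t0 c2 : ℝ} (hA : SetA Ω ρ f k0 B V t0 c2) (ε : ℝ) : IsOpen (Veps ρ V ε) :=
  hA.geo.opn.inter (isOpen_lt hA.dom.smooth.continuous continuous_const)

/-- the shifted points are in the domain -/
theorem fdom_mem {Ω : Set C2} {ρ : C2 → ℝ} {f : C2 → ℂ} {k0 : ℕ} {B : ℝ} {V : Set C2}
    {t0 c2 : ℝ} (hA : SetA Ω ρ f k0 B V t0 c2) {q : C2} (hq : q ∈ V) {t : ℝ} (ht : 0 < t)
    (ht0 : t ≤ t0) (hρ : ρ q ≤ t / 2) : (q, t) ∈ FDom Ω ρ := by
  refine ⟨hA.geo.g2ne q (subset_closure hq), ?_⟩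
  have h1 := hA.geo.disc q (subset_closure hq) t ht ht0 hρ 0 (by
    rw [norm_zero]
    exact mul_nonneg hA.geo.c2pos.le (Real.sqrt_nonneg _))
  rw [zero_smul, add_zero] at h1
  rw [hA.dom.eq]
  exact lt_of_le_of_lt h1 (by linarith)

theorem fk_zero (ρ : C2 → ℝ) (f : C2 → ℂ) (p : C2) (t : ℝ) :
    Fk ρ f 0 p t = f (p + (t : ℂ) • nu ρ p) := by
  unfold Fk
  rw [iteratedDeriv_zero, zero_smul, add_zero]

/-- the normal field is bounded -/
theorem nu_bdd (h1a : F1aStmt) {Ω : Set C2} {ρ : C2 → ℝ} {f : C2 → ℂ} {k0 : ℕ} {B : ℝ}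
    {V : Set C2} {t0 c2 : ℝ} (hA : SetA Ω ρ f k0 B V t0 c2) :
    ∃ C : ℝ, 0 < C ∧ ∀ q ∈ V, ‖nu ρ q‖ ≤ C := by
  have hO : IsOpen Ω := by
    rw [hA.dom.eq]
    exact isOpen_lt hA.dom.smooth.continuous continuous_const
  obtain ⟨-, hnu, -⟩ := h1a Ω ρ f hO hA.dom.smooth hA.bf.hol
  have h2 : ContinuousOn (nu ρ) (closure V) := hnu.continuousOn.mono fun q hq => hA.geo.g2ne q hq
  obtain ⟨C, hC⟩ := hA.geo.cpt.exists_bound_of_continuousOn h2
  exact ⟨max C 1, lt_max_of_lt_right one_pos,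
    fun q hq => (hC q (subset_closure hq)).trans (le_max_left _ _)⟩

/-- the integral of `exp (-|L|)` over an interval around `0` -/
theorem exp_int {a b : ℝ} (ha : a ≤ 0) (hb : 0 ≤ b) :
    ∫ L in a..b, Real.exp (-|L|) ≤ 2 := by
  have hi : ∀ u v : ℝ, IntervalIntegrable (fun L : ℝ => Real.exp (-|L|)) volume u v := by
    intro u v
    exact (Real.continuous_exp.comp continuous_abs.neg).intervalIntegrable u v
  rw [← intervalIntegral.integral_add_adjacent_intervals (hi a 0) (hi 0 b)]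
  have h1 : ∫ L in a..0, Real.exp (-|L|) = 1 - Real.exp a := by
    have : ∫ L in a..0, Real.exp (-|L|) = ∫ L in a..0, Real.exp L := by
      refine intervalIntegral.integral_congr fun L hL => ?_
      rw [Set.uIcc_of_le ha] at hL
      show Real.exp (-|L|) = Real.exp L
      rw [abs_of_nonpos hL.2, neg_neg]
    rw [this, integral_exp, Real.exp_zero]
  have h2 : ∫ L in (0 : ℝ)..b, Real.exp (-|L|) = 1 - Real.exp (-b) := by
    have : ∫ L in (0 : ℝ)..b, Real.exp (-|L|) = ∫ L in (0 : ℝ)..b, Real.exp (-L) := by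
      refine intervalIntegral.integral_congr fun L hL => ?_
      rw [Set.uIcc_of_le hb] at hL
      show Real.exp (-|L|) = Real.exp (-L)
      rw [abs_of_nonneg hL.1]
    rw [this, intervalIntegral.integral_comp_neg (fun x => Real.exp x), integral_exp, neg_zero,
      Real.exp_zero]
  rw [h1, h2]
  linarith [Real.exp_pos a, Real.exp_pos (-b)]

end Pool.Agent.AK.H51
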