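import Pool.Agent.Helper51_AK.Base

/-!
# AK module E4: the approximation is close to f
-/

set_option autoImplicit false

namespace Pool.Agent.AK.H51

open Complex MeasureTheory

theorem sum_bd {E : Type*} [NormedAddCommGroup E] [NormedSpace ℝ E] {s : Set E} (hs : IsOpen s)
    {ι : Type*} (S : Finset ι) {u : ι → E → ℂ} {n : ℕ} {x : E} (hx : x ∈ s) {j : ℕ} (hj : j ≤ n)
    {b : ι → ℝ} (hu : ∀ i ∈ S, ContDiffOn ℝ (n : WithTop ℕ∞) (u i) s ∧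
      ‖iteratedFDeriv ℝ j (u i) x‖ ≤ b i) :
    ContDiffOn ℝ (n : WithTop ℕ∞) (fun y => ∑ i ∈ S, u i y) s ∧
      ‖iteratedFDeriv ℝ j (fun y => ∑ i ∈ S, u i y) x‖ ≤ ∑ i ∈ S, b i := by
  classical
  induction S using Finset.induction_on with
  | empty =>
    simp only [Finset.sum_empty]
    refine ⟨contDiffOn_const, ?_⟩
    have : iteratedFDeriv ℝ j (fun _ : E => (0 : ℂ)) x = 0 := by
      cases j with
      | zero =>
        rw [← norm_eq_zero, norm_iteratedFDeriv_zero, norm_zero]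
      | succ j => rw [iteratedFDeriv_succ_const]; rfl
    rw [this, norm_zero]
  | insert i S hi ih =>
    obtain ⟨h1, h2⟩ := hu i (Finset.mem_insert_self _ _)
    obtain ⟨h3, h4⟩ := ih fun k hk => hu k (Finset.mem_insert_of_mem hk)
    simp only [Finset.sum_insert hi]
    refine ⟨h1.add h3, ?_⟩
    have hjn : (j : WithTop ℕ∞) ≤ (n : WithTop ℕ∞) := by exact_mod_cast hj
    have h5 : iteratedFDeriv ℝ j (fun y => u i y + ∑ k ∈ S, u k y) x =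
        iteratedFDeriv ℝ j (u i) x + iteratedFDeriv ℝ j (fun y => ∑ k ∈ S, u k y) x :=
      iteratedFDeriv_add_apply ((h1.contDiffAt (hs.mem_nhds hx)).of_le hjn)
        ((h3.contDiffAt (hs.mem_nhds hx)).of_le hjn)
    rw [h5]
    exact (norm_add_le _ _).trans (add_le_add h2 h4)

theorem term_bd (h6 : L6Stmt) {Ω : Set C2} {ρ : C2 → ℝ} {f : C2 → ℂ} {k0 : ℕ} {B : ℝ}
    {V : Set C2} {t0 c2 : ℝ} (hA : SetA Ω ρ f k0 B V t0 c2) {c0 : C2 → ℂ} (hc0 : CS V (k0 + 1) c0)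
    {a : C2 → ℂ} (ha : CS V (k0 + 1) a) (k : ℕ) {g : ℂ → ℂ} (hg : Dec g) :
    ∃ C : ℝ, 0 ≤ C ∧ ∀ ε : ℝ, 0 < ε → ε < t0 →
      ContDiffOn ℝ ((k0 + 1 : ℕ) : WithTop ℕ∞) (fun p => a p * Ik ρ f c0 t0 ε k g p)
        (Veps ρ V ε) ∧
      ∀ j ≤ k0, ∀ q ∈ Veps ρ V ε,
        ‖iteratedFDeriv ℝ j (fun p => a p * Ik ρ f c0 t0 ε k g p) q‖ ≤ C * Real.sqrt ε ^ k := by
  obtain ⟨C, hC⟩ := h6 Ω ρ f k0 B V t0 c2 hA c0 hc0 k g hg
  obtain ⟨A, hA0, hAb⟩ := bdd_of_cs hA.geo.cpt ha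
  obtain ⟨U, hU, hVU, had⟩ := ha
  refine ⟨2 ^ k0 * (A * |C|), by positivity, fun ε hε hεt => ?_⟩
  obtain ⟨h1, h2⟩ := hC ε hε hεt
  have hsub : Veps ρ V ε ⊆ U := fun q hq => hVU (subset_closure hq.1)
  refine ⟨(had.mono hsub).mul h1, fun j hj q hq => ?_⟩
  have hs : 0 ≤ Real.sqrt ε ^ k := pow_nonneg (Real.sqrt_nonneg _) _
  have h3 := mul_bd (veps_open hA ε) (had.mono hsub) h1 hq (j := j) (by omega)
    (a := A) (b := |C| * Real.sqrt ε ^ k) (fun i hi => hAb i (by omega) q hq.1)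
    (fun i hi => (h2 i (by omega) q hq).trans
      (mul_le_mul_of_nonneg_right (le_abs_self _) hs))
  refine h3.trans ?_
  have h4 : (2 : ℝ) ^ j ≤ 2 ^ k0 := pow_le_pow_right₀ (by norm_num) hj
  have h5 : 0 ≤ A * (|C| * Real.sqrt ε ^ k) := by positivity
  calc (2 : ℝ) ^ j * (A * (|C| * Real.sqrt ε ^ k)) ≤ 2 ^ k0 * (A * (|C| * Real.sqrt ε ^ k)) :=
        mul_le_mul_of_nonneg_right h4 h5
    _ = 2 ^ k0 * (A * |C|) * Real.sqrt ε ^ k := by ring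

theorem e4 (h1 : L1Stmt) (h6 : L6Stmt) (h4a : E4aStmt) : E4Stmt := by
  intro Ω ρ f k0 B V t0 c2 hA J c K' K h hJ hT hK
  have hc0 := hT.sm 0
  have ht0 := hA.geo.t0pos
  have ht1 := hA.geo.t0le
  -- the coefficients
  have hcoef : ∀ k j : ℕ, CS V (k0 + 1) (fun p => exp ((k : ℂ) * c 0 p) * qf c j k p) :=
    fun k j => cs_mul (cs_exp (cs_mul (cs_const V _ _) hc0)) (cs_qf hT.sm j k)
  have hterm : ∀ k j : ℕ, ∃ C : ℝ, 0 ≤ C ∧ ∀ ε : ℝ, 0 < ε → ε < t0 →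
      ContDiffOn ℝ ((k0 + 1 : ℕ) : WithTop ℕ∞) (fun p => exp ((k : ℂ) * c 0 p) * qf c j k p *
        Ik ρ f (c 0) t0 ε k (h k j) p) (Veps ρ V ε) ∧
      ∀ m ≤ k0, ∀ q ∈ Veps ρ V ε,
        ‖iteratedFDeriv ℝ m (fun p => exp ((k : ℂ) * c 0 p) * qf c j k p *
          Ik ρ f (c 0) t0 ε k (h k j) p) q‖ ≤ C * Real.sqrt ε ^ k :=
    fun k j => term_bd h6 hA hc0 (hcoef k j) k (hK.dec k j)
  choose C hC0 hC using hterm
  obtain ⟨CK, hCK⟩ := h6 Ω ρ f k0 B V t0 c2 hA (c 0) hc0 0 K hK.decK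
  -- the rest
  have hrest : ∀ ε : ℝ, 0 < ε → ε < t0 → ∀ q ∈ Veps ρ V ε, ∀ m ≤ k0,
      ContDiffOn ℝ ((k0 + 1 : ℕ) : WithTop ℕ∞) (fun p => ∑ k ∈ Finset.Icc 1 J,
        ∑ j ∈ Finset.Icc 1 k, exp ((k : ℂ) * c 0 p) * qf c j k p *
          Ik ρ f (c 0) t0 ε k (h k j) p) (Veps ρ V ε) ∧
      ‖iteratedFDeriv ℝ m (fun p => ∑ k ∈ Finset.Icc 1 J,
        ∑ j ∈ Finset.Icc 1 k, exp ((k : ℂ) * c 0 p) * qf c j k p *
          Ik ρ f (c 0) t0 ε k (h k j) p) q‖ ≤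
        ∑ k ∈ Finset.Icc 1 J, ∑ j ∈ Finset.Icc 1 k, C k j * Real.sqrt ε ^ k := by
    intro ε hε hεt q hq m hm
    refine sum_bd (veps_open hA ε) _ hq (by omega) fun k _ => ?_
    refine sum_bd (veps_open hA ε) _ hq (by omega) fun j _ => ?_
    obtain ⟨g1, g2⟩ := hC k j ε hε hεt
    exact ⟨g1, g2 m hm q hq⟩
  have hrestC : ∀ ε : ℝ, 0 < ε → ε < t0 →
      ContDiffOn ℝ ((k0 + 1 : ℕ) : WithTop ℕ∞) (fun p => ∑ k ∈ Finset.Icc 1 J,
        ∑ j ∈ Finset.Icc 1 k, exp ((k : ℂ) * c 0 p) * qf c j k p *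
          Ik ρ f (c 0) t0 ε k (h k j) p) (Veps ρ V ε) := by
    intro ε hε hεt
    refine ContDiffOn.sum fun k _ => ContDiffOn.sum fun j _ => (hC k j ε hε hεt).1
  refine ⟨fun ε hε hεt => (hCK ε hε hεt).1.add (hrestC ε hε hεt), fun δ hδ => ?_⟩
  obtain ⟨ε1, hε1, hε1t, hE⟩ := h4a Ω ρ f k0 B V t0 c2 hA (c 0) hc0 K hK.decK hK.mass (δ / 3)
    (by positivity)
  obtain ⟨r, hr, hrt, hL⟩ := h1 Ω ρ f k0 B V t0 c2 hA (δ / 3) (by positivity)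
  obtain ⟨S, hS⟩ : ∃ S : ℝ, S = ∑ k ∈ Finset.Icc 1 J, ∑ j ∈ Finset.Icc 1 k, C k j := ⟨_, rfl⟩
  have hS0 : 0 ≤ S := by
    rw [hS]
    exact Finset.sum_nonneg fun k _ => Finset.sum_nonneg fun j _ => hC0 k j
  obtain ⟨η, hη⟩ : ∃ η : ℝ, η = δ / (3 * (S + 1)) := ⟨_, rfl⟩
  have hη0 : 0 < η := by
    rw [hη]
    positivity
  refine ⟨min (min ε1 r) (η ^ 2), by positivity, (min_le_left _ _).trans
    ((min_le_left _ _).trans hε1t), fun ε hε hlt q hq p hp hpq j hj => ?_⟩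
  have hlt1 : ε < ε1 := lt_of_lt_of_le hlt ((min_le_left _ _).trans (min_le_left _ _))
  have hltr : ε < r := lt_of_lt_of_le hlt ((min_le_left _ _).trans (min_le_right _ _))
  have hltη : ε < η ^ 2 := lt_of_lt_of_le hlt (min_le_right _ _)
  have hεt : ε < t0 := hlt1.trans_le hε1t
  have hε1' : ε ≤ 1 := hεt.le.trans ht1
  have hsq : Real.sqrt ε ≤ η := by
    rw [Real.sqrt_le_left hη0.le]
    exact hltη.le
  have hsq1 : Real.sqrt ε ≤ 1 := by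
    rw [Real.sqrt_le_left (by norm_num)]
    linarith
  have hρ : ρ q < ε / 2 := by
    have h2 : ρ q < ε ^ 2 / 2 := hq.2
    nlinarith
  have hopen := veps_open hA ε
  have hjk : ((j : ℕ) : WithTop ℕ∞) ≤ ((k0 + 1 : ℕ) : WithTop ℕ∞) := by
    exact_mod_cast (by omega : j ≤ k0 + 1)
  have e1 : iteratedFDeriv ℝ j (Feps ρ f c t0 ε J K h) q =
      iteratedFDeriv ℝ j (Ik ρ f (c 0) t0 ε 0 K) q +
        iteratedFDeriv ℝ j (fun p => ∑ k ∈ Finset.Icc 1 J,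
          ∑ j ∈ Finset.Icc 1 k, exp ((k : ℂ) * c 0 p) * qf c j k p *
            Ik ρ f (c 0) t0 ε k (h k j) p) q :=
    iteratedFDeriv_add_apply
      (((hCK ε hε hεt).1.contDiffAt (hopen.mem_nhds hq)).of_le hjk)
      (((hrestC ε hε hεt).contDiffAt (hopen.mem_nhds hq)).of_le hjk)
  have b1 := hE ε hε hlt1 q hq j hj
  have b2 := hL ε hε hltr q hq.1 hρ p hp (hpq.trans hltr.le) j hj
  have b3 : ‖iteratedFDeriv ℝ j (fun p => ∑ k ∈ Finset.Icc 1 J,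
      ∑ j ∈ Finset.Icc 1 k, exp ((k : ℂ) * c 0 p) * qf c j k p *
        Ik ρ f (c 0) t0 ε k (h k j) p) q‖ ≤ δ / 3 := by
    refine (hrest ε hε hεt q hq j hj).2.trans ?_
    have h7 : ∑ k ∈ Finset.Icc 1 J, ∑ j ∈ Finset.Icc 1 k, C k j * Real.sqrt ε ^ k ≤
        ∑ k ∈ Finset.Icc 1 J, ∑ j ∈ Finset.Icc 1 k, C k j * Real.sqrt ε := by
      refine Finset.sum_le_sum fun k hk => Finset.sum_le_sum fun j _ => ?_
      refine mul_le_mul_of_nonneg_left ?_ (hC0 k j)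
      rw [Finset.mem_Icc] at hk
      calc Real.sqrt ε ^ k ≤ Real.sqrt ε ^ 1 :=
            pow_le_pow_of_le_one (Real.sqrt_nonneg _) hsq1 hk.1
        _ = Real.sqrt ε := pow_one _
    refine h7.trans ?_
    simp only [← Finset.sum_mul]
    rw [← hS]
    have h8 : S * Real.sqrt ε ≤ S * η := mul_le_mul_of_nonneg_left hsq hS0
    refine h8.trans ?_
    rw [hη]
    have h9 : S * (δ / (3 * (S + 1))) = (S / (S + 1)) * (δ / 3) := by
      field_simp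
    rw [h9]
    have h10 : S / (S + 1) ≤ 1 := by
      rw [div_le_one (by linarith)]
      linarith
    nlinarith
  rw [e1]
  calc ‖iteratedFDeriv ℝ j (Ik ρ f (c 0) t0 ε 0 K) q +
        iteratedFDeriv ℝ j (fun p => ∑ k ∈ Finset.Icc 1 J,
          ∑ j ∈ Finset.Icc 1 k, exp ((k : ℂ) * c 0 p) * qf c j k p *
            Ik ρ f (c 0) t0 ε k (h k j) p) q - iteratedFDeriv ℝ j f p‖
      = ‖(iteratedFDeriv ℝ j (Ik ρ f (c 0) t0 ε 0 K) q
          - iteratedFDeriv ℝ j (fun x => f (x + (ε : ℂ) • nu ρ x)) q) +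
        (iteratedFDeriv ℝ j (fun x => f (x + (ε : ℂ) • nu ρ x)) q - iteratedFDeriv ℝ j f p) +
        iteratedFDeriv ℝ j (fun p => ∑ k ∈ Finset.Icc 1 J,
          ∑ j ∈ Finset.Icc 1 k, exp ((k : ℂ) * c 0 p) * qf c j k p *
            Ik ρ f (c 0) t0 ε k (h k j) p) q‖ := by
        congr 1
        abel
    _ ≤ δ / 3 + δ / 3 + δ / 3 := (norm_add₃_le).trans (add_le_add (add_le_add b1 b2) b3)
    _ = δ := by ring

end Pool.Agent.AK.H51
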