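import Pool.Agent.Helper51_AK.Kap

/-!
# AK module E4a: the main term of the approximation is close to `f (q + eps nu q)`
-/

set_option autoImplicit false

namespace Pool.Agent.AK.H51

open Complex MeasureTheory

theorem dom_open {Ω : Set C2} {ρ : C2 → ℝ} {f : C2 → ℂ} {k0 : ℕ} {B : ℝ} {V : Set C2}
    {t0 c2 : ℝ} (hA : SetA Ω ρ f k0 B V t0 c2) : IsOpen Ω := by
  rw [hA.dom.eq]
  exact isOpen_lt hA.dom.smooth.continuous continuous_const

/-- membership in the domain for points of the collar -/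
theorem veps_fdom {Ω : Set C2} {ρ : C2 → ℝ} {f : C2 → ℂ} {k0 : ℕ} {B : ℝ} {V : Set C2}
    {t0 c2 : ℝ} (hA : SetA Ω ρ f k0 B V t0 c2) {ε t : ℝ} (hε : 0 < ε) (h1 : ε ^ 2 ≤ t)
    (h2 : t ≤ t0) {x : C2} (hx : x ∈ Veps ρ V ε) : (x, t) ∈ FDom Ω ρ := by
  have h3 : 0 < t := lt_of_lt_of_le (by positivity) h1
  exact fdom_mem hA hx.1 h3 h2 (by linarith [hx.2])

theorem fk_cd (h1a : F1aStmt) {Ω : Set C2} {ρ : C2 → ℝ} {f : C2 → ℂ} {k0 : ℕ} {B : ℝ}
    {V : Set C2} {t0 c2 : ℝ} (hA : SetA Ω ρ f k0 B V t0 c2) {ε t : ℝ} (hε : 0 < ε)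
    (h1 : ε ^ 2 ≤ t) (h2 : t ≤ t0) (n : ℕ) :
    ContDiffOn ℝ (n : WithTop ℕ∞) (fun x => Fk ρ f 0 x t) (Veps ρ V ε) := by
  obtain ⟨-, -, -, hFk, -⟩ := h1a Ω ρ f (dom_open hA) hA.dom.smooth hA.bf.hol
  have h3 : ContDiffOn ℝ SM (fun x : C2 => (x, t)) (Veps ρ V ε) :=
    (contDiff_id.prodMk contDiff_const).contDiffOn
  have h4 := (hFk 0).comp h3 (fun x hx => veps_fdom hA hε h1 h2 hx)
  exact h4.of_le (WithTop.coe_le_coe.2 le_top)

/-- the pointwise bound of the derivatives of the difference -/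
theorem diff_bd {Ω : Set C2} {ρ : C2 → ℝ} {f : C2 → ℂ} {k0 : ℕ} {B : ℝ}
    {V : Set C2} {t0 c2 : ℝ} (h1a : F1aStmt) (hA : SetA Ω ρ f k0 B V t0 c2) {C0 : ℝ}
    (hC0 : ∀ j ≤ k0, ∀ (t : ℝ), 0 < t → t ≤ t0 → ∀ q ∈ V,
      ρ q < t / 2 → ∀ lam : ℂ, ‖lam‖ ≤ c2 * Real.sqrt t →
      ‖iteratedFDeriv ℝ j (fun x => f (x + (t : ℂ) • nu ρ x + lam • tau ρ x)) q‖ ≤ C0)
    {δ r Cν : ℝ} (hδ : 0 < δ) (hr0 : 0 < r)
    (hr : ∀ t : ℝ, 0 < t → t < r → ∀ q ∈ V, ρ q < t / 2 → ∀ p ∈ Ω, ‖p - q‖ ≤ r → ∀ j ≤ k0,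
        ‖iteratedFDeriv ℝ j (fun x => f (x + (t : ℂ) • nu ρ x)) q - iteratedFDeriv ℝ j f p‖ ≤ δ)
    (hν : ∀ q ∈ V, ‖nu ρ q‖ ≤ Cν) {ε : ℝ} (hε : 0 < ε) (hεr : ε < r) (hεt : ε < t0)
    (hε1 : ε * Cν ≤ r) {q : C2} (hq : q ∈ Veps ρ V ε) {i : ℕ} (hi : i ≤ k0) {L : ℝ}
    (hL1 : ε ^ 2 ≤ ε * Real.exp L) (hL2 : ε * Real.exp L ≤ t0) :
    ‖iteratedFDeriv ℝ i (fun x => Fk ρ f 0 x (ε * Real.exp L) - Fk ρ f 0 x ε) q‖ ≤
      (2 * δ + 2 * |C0| * (ε / r)) * Real.exp |L| := by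
  have hε2 : ε ^ 2 ≤ ε := by nlinarith [hA.geo.t0le]
  have ht : 0 < ε * Real.exp L := by positivity
  have c1 := fk_cd h1a hA hε hL1 hL2 k0
  have c2' := fk_cd h1a hA hε hε2 hεt.le k0
  have hVo := veps_open hA ε
  have hil : ((i : ℕ) : WithTop ℕ∞) ≤ ((k0 : ℕ) : WithTop ℕ∞) := by exact_mod_cast hi
  have h2 := iteratedFDeriv_sub_apply (𝕜 := ℝ) (i := i)
    (f := fun x => Fk ρ f 0 x (ε * Real.exp L)) (g := fun x => Fk ρ f 0 x ε) (x := q)
    ((c1.contDiffAt (hVo.mem_nhds hq)).of_le hil)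
    ((c2'.contDiffAt (hVo.mem_nhds hq)).of_le hil)
  have h3 : iteratedFDeriv ℝ i (fun x => Fk ρ f 0 x (ε * Real.exp L) - Fk ρ f 0 x ε) q =
      iteratedFDeriv ℝ i (fun x => Fk ρ f 0 x (ε * Real.exp L)) q -
        iteratedFDeriv ℝ i (fun x => Fk ρ f 0 x ε) q := h2
  have e1 : ∀ t : ℝ, (fun x => Fk ρ f 0 x t) = fun x => f (x + (t : ℂ) • nu ρ x) := by
    intro t
    funext x
    exact fk_zero ρ f x t
  rw [h3, e1, e1]
  have hρ1 : ρ q < ε * Real.exp L / 2 := by linarith [hq.2]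
  have hρ2 : ρ q < ε / 2 := by linarith [hq.2]
  have hex : 1 ≤ Real.exp |L| := Real.one_le_exp (abs_nonneg _)
  have hC0n := abs_nonneg C0
  rcases lt_or_ge (ε * Real.exp L) r with hc | hc
  · have hp : q + (ε : ℂ) • nu ρ q ∈ Ω := (veps_fdom hA hε hε2 hεt.le hq).2
    have hpq : ‖(q + (ε : ℂ) • nu ρ q) - q‖ ≤ r := by
      rw [add_sub_cancel_left, norm_smul, norm_real, Real.norm_eq_abs, abs_of_pos hε]
      exact (mul_le_mul_of_nonneg_left (hν q hq.1) hε.le).trans hε1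
    have h4 := hr (ε * Real.exp L) ht hc q hq.1 hρ1 _ hp hpq i hi
    have h5 := hr ε hε hεr q hq.1 hρ2 _ hp hpq i hi
    calc _ = ‖(iteratedFDeriv ℝ i (fun x => f (x + ((ε * Real.exp L : ℝ) : ℂ) • nu ρ x)) q -
          iteratedFDeriv ℝ i f (q + (ε : ℂ) • nu ρ q)) -
          (iteratedFDeriv ℝ i (fun x => f (x + (ε : ℂ) • nu ρ x)) q -
          iteratedFDeriv ℝ i f (q + (ε : ℂ) • nu ρ q))‖ := by rw [sub_sub_sub_cancel_right]
      _ ≤ δ + δ := (norm_sub_le _ _).trans (add_le_add h4 h5)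
      _ = 2 * δ := by ring
      _ ≤ 2 * δ + 2 * |C0| * (ε / r) := le_add_of_nonneg_right (by positivity)
      _ ≤ _ := le_mul_of_one_le_right (by positivity) hex
  · have hz : ∀ t : ℝ, (fun x => f (x + (t : ℂ) • nu ρ x)) =
        fun x => f (x + (t : ℂ) • nu ρ x + (0 : ℂ) • tau ρ x) := by
      intro t
      funext x
      rw [zero_smul, add_zero]
    have hl : ∀ t : ℝ, ‖(0 : ℂ)‖ ≤ c2 * Real.sqrt t := fun t => by
      rw [norm_zero]
      exact mul_nonneg hA.geo.c2pos.le (Real.sqrt_nonneg _)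
    have h4 := hC0 i hi (ε * Real.exp L) ht hL2 q hq.1 hρ1 0 (hl _)
    have h5 := hC0 i hi ε hε hεt.le q hq.1 hρ2 0 (hl _)
    rw [← hz] at h4 h5
    have h6 : 1 ≤ (ε / r) * Real.exp |L| := by
      have h7 : 1 ≤ ε * Real.exp L / r := by rwa [one_le_div hr0]
      calc (1 : ℝ) ≤ ε * Real.exp L / r := h7
        _ = (ε / r) * Real.exp L := by ring
        _ ≤ _ := mul_le_mul_of_nonneg_left (Real.exp_le_exp.2 (le_abs_self _)) (by positivity)
    calc _ ≤ C0 + C0 := (norm_sub_le _ _).trans (add_le_add h4 h5)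
      _ ≤ 2 * |C0| := by linarith [le_abs_self C0]
      _ ≤ 2 * |C0| * ((ε / r) * Real.exp |L|) := le_mul_of_one_le_right (by positivity) h6
      _ ≤ 2 * δ * Real.exp |L| + 2 * |C0| * ((ε / r) * Real.exp |L|) :=
        le_add_of_nonneg_left (by positivity)
      _ = _ := by ring

theorem e4a (h0 : L0Stmt) (h1 : L1Stmt) (h3 : L3Stmt) (h4 : L4Stmt) (h1a : F1aStmt)
    (h3a : F3aStmt) : E4aStmt := by
  intro Ω ρ f k0 B V t0 c2 hA c0 hc0 K hK hm δ hδ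
  have hVo := hA.geo.opn
  have hVc := hA.geo.cpt
  have ht0 := hA.geo.t0pos
  have ht1 := hA.geo.t0le
  obtain ⟨hFo, -, -, hFk, -⟩ := h1a Ω ρ f (dom_open hA) hA.dom.smooth hA.bf.hol
  obtain ⟨C0, hC0⟩ := h0 Ω ρ f k0 B V t0 c2 hA
  obtain ⟨C3, hC3⟩ := h3 V (k0 + 1) c0 hVc hc0 K hK 2
  obtain ⟨Ck, hCk0, hCk⟩ := kap_bd h3a h3 h4 hVo hVc hc0 hK hm ht0 ht1
  obtain ⟨Cν, hCν0, hCν⟩ := nu_bdd h1a hA
  obtain ⟨U, hU, hVU, hd⟩ := hc0
  have hsub : V ⊆ U := subset_closure.trans hVU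
  have hA0 : 0 ≤ |C0| := abs_nonneg _
  have hA3 : 0 ≤ |C3| := abs_nonneg _
  obtain ⟨δ1, hδ1⟩ : ∃ x : ℝ, x = δ / (8 * 2 ^ k0 * (|C3| + 1)) := ⟨_, rfl⟩
  have hδ1p : 0 < δ1 := by
    rw [hδ1]
    positivity
  obtain ⟨r, hr0, hrt, hr⟩ := h1 Ω ρ f k0 B V t0 c2 hA δ1 hδ1p
  obtain ⟨M, hM⟩ : ∃ x : ℝ, x = 2 ^ k0 * (4 * |C3| * |C0| / r + |C0| * Ck) := ⟨_, rfl⟩
  have hM0 : 0 ≤ M := by
    rw [hM]
    positivity
  refine ⟨min (min r (r / Cν)) (δ / (2 * (M + 1))), by positivity,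
    (min_le_left _ _).trans ((min_le_left _ _).trans hrt), fun ε hε hε0 q hq j hj => ?_⟩
  have hεr : ε < r := lt_of_lt_of_le hε0 ((min_le_left _ _).trans (min_le_left _ _))
  have hεν : ε < r / Cν := lt_of_lt_of_le hε0 ((min_le_left _ _).trans (min_le_right _ _))
  have hεM : ε < δ / (2 * (M + 1)) := lt_of_lt_of_le hε0 (min_le_right _ _)
  have hεt : ε < t0 := lt_of_lt_of_le hεr hrt
  have hε1 : ε * Cν ≤ r := by
    rw [lt_div_iff₀ hCν0] at hεν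
    exact hεν.le
  have hε2 : ε ^ 2 ≤ ε := by nlinarith
  obtain ⟨g1, g2, g3, g4, g5, g6⟩ := log_facts hε hεt ht1
  obtain ⟨a, ha⟩ : ∃ x : ℝ, x = Real.log ε := ⟨_, rfl⟩
  obtain ⟨b, hb⟩ : ∃ x : ℝ, x = Real.log (t0 / ε) := ⟨_, rfl⟩
  have hab : a ≤ b := by
    rw [ha, hb]
    exact g1.trans g2
  have hwin : ∀ L ∈ Set.Icc a b, ε ^ 2 ≤ ε * Real.exp L ∧ ε * Real.exp L ≤ t0 := by
    intro L hL
    have w1 : ε ≤ Real.exp L := by
      rw [← Real.log_le_iff_le_exp hε, ← ha]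
      exact hL.1
    have w2 : Real.exp L ≤ t0 / ε := by
      rw [← Real.le_log_iff_exp_le (by positivity), ← hb]
      exact hL.2
    refine ⟨by nlinarith, ?_⟩
    rw [le_div_iff₀ hε] at w2
    linarith
  have hWo := veps_open hA ε
  -- the functions
  obtain ⟨H, hH⟩ : ∃ H : C2 → ℝ → ℂ, H = fun x L =>
      (Fk ρ f 0 x (ε * Real.exp L) - Fk ρ f 0 x ε) * K ((L : ℂ) - c0 x) := ⟨_, rfl⟩
  have hKd : ContDiff ℝ SM K := by
    have : ContDiff ℂ SM K := hK.1.contDiff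
    exact this.restrict_scalars ℝ
  have hKL : ∀ L : ℝ, ContDiffOn ℝ (k0 : WithTop ℕ∞) (fun x => K ((L : ℂ) - c0 x)) U := by
    intro L
    have h6 : ContDiffOn ℝ ((k0 + 1 : ℕ) : WithTop ℕ∞) (fun x => (L : ℂ) - c0 x) U :=
      contDiffOn_const.sub hd
    have h7 : ((k0 : ℕ) : WithTop ℕ∞) ≤ ((k0 + 1 : ℕ) : WithTop ℕ∞) := by
      exact_mod_cast Nat.le_succ k0
    exact ((hKd.of_le (WithTop.coe_le_coe.2 le_top)).comp_contDiffOn h6).of_le h7
  have hL4 := h4 (Veps ρ V ε) a b H {y | y.1 ∈ U ∧ (y.1, ε * Real.exp y.2) ∈ FDom Ω ρ ∧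
    (y.1, ε) ∈ FDom Ω ρ} k0 hWo hab (by
      refine (hU.preimage continuous_fst).inter ((hFo.preimage ?_).inter (hFo.preimage ?_))
      · exact continuous_fst.prodMk (continuous_const.mul (Real.continuous_exp.comp continuous_snd))
      · exact continuous_fst.prodMk continuous_const) (by
      rintro ⟨x, L⟩ ⟨hx, hL⟩
      obtain ⟨w1, w2⟩ := hwin L hL
      exact ⟨hsub hx.1, veps_fdom hA hε w1 w2 hx, veps_fdom hA hε hε2 hεt.le hx⟩) (by
      rw [hH]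
      refine ContDiffOn.mul (ContDiffOn.sub ?_ ?_) ?_
      · have i1 : ContDiff ℝ SM (fun y : C2 × ℝ => (y.1, ε * Real.exp y.2)) :=
          contDiff_fst.prodMk (contDiff_const.mul (Real.contDiff_exp.comp contDiff_snd))
        have i2 := (hFk 0).comp i1.contDiffOn (s := {y : C2 × ℝ | y.1 ∈ U ∧
          (y.1, ε * Real.exp y.2) ∈ FDom Ω ρ ∧ (y.1, ε) ∈ FDom Ω ρ}) (fun y hy => hy.2.1)
        exact i2.of_le (WithTop.coe_le_coe.2 le_top)
      · have i1 : ContDiff ℝ SM (fun y : C2 × ℝ => (y.1, ε)) :=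
          contDiff_fst.prodMk contDiff_const
        have i2 := (hFk 0).comp i1.contDiffOn (s := {y : C2 × ℝ | y.1 ∈ U ∧
          (y.1, ε * Real.exp y.2) ∈ FDom Ω ρ ∧ (y.1, ε) ∈ FDom Ω ρ}) (fun y hy => hy.2.2)
        exact i2.of_le (WithTop.coe_le_coe.2 le_top)
      · have i1 : ContDiffOn ℝ ((k0 + 1 : ℕ) : WithTop ℕ∞)
            (fun y : C2 × ℝ => (y.2 : ℂ) - c0 y.1) {y : C2 × ℝ | y.1 ∈ U ∧
            (y.1, ε * Real.exp y.2) ∈ FDom Ω ρ ∧ (y.1, ε) ∈ FDom Ω ρ} := by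
          refine ContDiffOn.sub ?_ ?_
          · exact (Complex.ofRealCLM.contDiff.comp contDiff_snd).contDiffOn
          · exact hd.comp contDiff_fst.contDiffOn (fun y hy => hy.1)
        have i2 : ((k0 : ℕ) : WithTop ℕ∞) ≤ ((k0 + 1 : ℕ) : WithTop ℕ∞) := by
          exact_mod_cast Nat.le_succ k0
        exact ((hKd.of_le (WithTop.coe_le_coe.2 le_top)).comp_contDiffOn i1).of_le i2)
  obtain ⟨hcd, hbd, -⟩ := hL4
  obtain ⟨hco, hle⟩ := hbd j hj q hq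
  -- bound of the first part
  have hpt : ∀ L ∈ Set.Icc a b, ‖iteratedFDeriv ℝ j (fun x => H x L) q‖ ≤
      2 ^ k0 * (|C3| * (2 * δ1 + 2 * |C0| * (ε / r))) * Real.exp (-|L|) := by
    intro L hL
    obtain ⟨w1, w2⟩ := hwin L hL
    rw [hH]
    have u1 := mul_bd hWo (((fk_cd h1a hA hε w1 w2 k0)).sub (fk_cd h1a hA hε hε2 hεt.le k0))
      ((hKL L).mono (fun x hx => hsub hx.1)) hq hj
      (a := (2 * δ1 + 2 * |C0| * (ε / r)) * Real.exp |L|) (b := |C3| * Real.exp (-(2 * |L|)))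
      (fun i hi => diff_bd h1a hA hC0 hδ1p hr0 hr hCν hε hεr hεt hε1 hq (hi.trans hj) w1 w2)
      (fun i hi => by
        have := hC3 i (by omega) L q hq.1
        rw [Nat.cast_ofNat] at this
        exact this.trans (mul_le_mul_of_nonneg_right (le_abs_self _) (Real.exp_pos _).le))
    refine u1.trans ?_
    have u2 : Real.exp |L| * Real.exp (-(2 * |L|)) = Real.exp (-|L|) := by
      rw [← Real.exp_add]
      congr 1
      ring
    have u3 : (2 : ℝ) ^ j ≤ 2 ^ k0 := pow_le_pow_right₀ (by norm_num) hj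
    calc (2 : ℝ) ^ j * ((2 * δ1 + 2 * |C0| * (ε / r)) * Real.exp |L| *
          (|C3| * Real.exp (-(2 * |L|))))
        = 2 ^ j * ((|C3| * (2 * δ1 + 2 * |C0| * (ε / r))) *
          (Real.exp |L| * Real.exp (-(2 * |L|)))) := by ring
      _ = 2 ^ j * ((|C3| * (2 * δ1 + 2 * |C0| * (ε / r))) * Real.exp (-|L|)) := by rw [u2]
      _ ≤ 2 ^ k0 * ((|C3| * (2 * δ1 + 2 * |C0| * (ε / r))) * Real.exp (-|L|)) :=
        mul_le_mul_of_nonneg_right u3 (by positivity)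
      _ = _ := by ring
  have hfirst : ‖iteratedFDeriv ℝ j (fun x => ∫ L in a..b, H x L) q‖ ≤
      2 ^ k0 * (|C3| * (2 * δ1 + 2 * |C0| * (ε / r))) * 2 := by
    refine hle.trans ?_
    have v1 : IntervalIntegrable (fun L => ‖iteratedFDeriv ℝ j (fun x => H x L) q‖) volume a b := by
      refine ContinuousOn.intervalIntegrable ?_
      rw [Set.uIcc_of_le hab]
      exact hco.norm
    have v2 : IntervalIntegrable (fun L : ℝ =>
        2 ^ k0 * (|C3| * (2 * δ1 + 2 * |C0| * (ε / r))) * Real.exp (-|L|)) volume a b :=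
      (continuous_const.mul (Real.continuous_exp.comp continuous_abs.neg)).intervalIntegrable a b
    refine (intervalIntegral.integral_mono_on hab v1 v2 hpt).trans ?_
    rw [intervalIntegral.integral_const_mul]
    refine mul_le_mul_of_nonneg_left (exp_int ?_ ?_) (by positivity)
    · rw [ha]
      exact g1
    · rw [hb]
      exact g2
  -- the second part
  obtain ⟨hk1, hk2⟩ := hCk ε hε hεt
  rw [← ha, ← hb] at hk1 hk2
  have hG := fk_cd h1a hA hε hε2 hεt.le k0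
  have hk1' := hk1.mono (fun x (hx : x ∈ Veps ρ V ε) => hx.1)
  have hsecond : ‖iteratedFDeriv ℝ j (fun x => Fk ρ f 0 x ε *
      ((∫ L in a..b, K ((L : ℂ) - c0 x)) - 1)) q‖ ≤ 2 ^ k0 * (|C0| * (Ck * ε)) := by
    have u1 := mul_bd hWo hG hk1' hq hj (a := |C0|) (b := Ck * ε)
      (fun i hi => by
        have hz : (fun x => Fk ρ f 0 x ε) =
            fun x => f (x + (ε : ℂ) • nu ρ x + (0 : ℂ) • tau ρ x) := by
          funext x
          rw [zero_smul, add_zero]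
          exact fk_zero ρ f x ε
        rw [hz]
        refine (hC0 i (hi.trans hj) ε hε hεt.le q hq.1 (by linarith [hq.2]) 0 ?_).trans
          (le_abs_self _)
        rw [norm_zero]
        exact mul_nonneg hA.geo.c2pos.le (Real.sqrt_nonneg _))
      (fun i hi => hk2 i (hi.trans hj) q hq.1)
    refine u1.trans ?_
    have u3 : (2 : ℝ) ^ j ≤ 2 ^ k0 := pow_le_pow_right₀ (by norm_num) hj
    exact mul_le_mul_of_nonneg_right u3 (by positivity)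
  -- the decomposition
  have hdec : ∀ x ∈ Veps ρ V ε, Ik ρ f c0 t0 ε 0 K x = ((∫ L in a..b, H x L) +
      Fk ρ f 0 x ε * ((∫ L in a..b, K ((L : ℂ) - c0 x)) - 1)) + Fk ρ f 0 x ε := by
    intro x hx
    have hKc : Continuous (fun L : ℝ => K ((L : ℂ) - c0 x)) :=
      hK.1.continuous.comp (continuous_ofReal.sub continuous_const)
    have i1 : ContinuousOn (fun L : ℝ => Fk ρ f 0 x (ε * Real.exp L)) (Set.Icc a b) := by
      have i2 : Continuous (fun L : ℝ => (x, ε * Real.exp L)) :=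
        continuous_const.prodMk (continuous_const.mul Real.continuous_exp)
      refine (hFk 0).continuousOn.comp i2.continuousOn fun L hL => ?_
      obtain ⟨w1, w2⟩ := hwin L hL
      exact veps_fdom hA hε w1 w2 hx
    have i3 : IntervalIntegrable (fun L : ℝ => Fk ρ f 0 x (ε * Real.exp L) *
        K ((L : ℂ) - c0 x)) volume a b := by
      refine ContinuousOn.intervalIntegrable ?_
      rw [Set.uIcc_of_le hab]
      exact i1.mul hKc.continuousOn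
    have i4 : IntervalIntegrable (fun L : ℝ => Fk ρ f 0 x ε * K ((L : ℂ) - c0 x)) volume a b :=
      (continuous_const.mul hKc).intervalIntegrable a b
    have i5 : (∫ L in a..b, H x L) = (∫ L in a..b, Fk ρ f 0 x (ε * Real.exp L) *
        K ((L : ℂ) - c0 x)) - Fk ρ f 0 x ε * ∫ L in a..b, K ((L : ℂ) - c0 x) := by
      rw [← intervalIntegral.integral_const_mul, ← intervalIntegral.integral_sub i3 i4, hH]
      refine intervalIntegral.integral_congr fun L _ => ?_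
      show (Fk ρ f 0 x (ε * Real.exp L) - Fk ρ f 0 x ε) * K ((L : ℂ) - c0 x) = _
      ring
    rw [i5, Ik, pow_zero, one_mul, ← ha, ← hb]
    ring
  have hjl : ((j : ℕ) : WithTop ℕ∞) ≤ ((k0 : ℕ) : WithTop ℕ∞) := by exact_mod_cast hj
  have z1 : ContDiffAt ℝ (j : WithTop ℕ∞) (fun x => ∫ L in a..b, H x L) q :=
    (hcd.contDiffAt (hWo.mem_nhds hq)).of_le hjl
  have z2 : ContDiffAt ℝ (j : WithTop ℕ∞) (fun x => Fk ρ f 0 x ε *
      ((∫ L in a..b, K ((L : ℂ) - c0 x)) - 1)) q :=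
    ((hG.mul hk1').contDiffAt (hWo.mem_nhds hq)).of_le hjl
  have z3 : ContDiffAt ℝ (j : WithTop ℕ∞) (fun x => Fk ρ f 0 x ε) q :=
    (hG.contDiffAt (hWo.mem_nhds hq)).of_le hjl
  have y1 : iteratedFDeriv ℝ j (Ik ρ f c0 t0 ε 0 K) q =
      iteratedFDeriv ℝ j (fun x => ((∫ L in a..b, H x L) +
        Fk ρ f 0 x ε * ((∫ L in a..b, K ((L : ℂ) - c0 x)) - 1)) + Fk ρ f 0 x ε) q :=
    iter_congr hWo hdec hq j
  have y2 : iteratedFDeriv ℝ j (fun x => ((∫ L in a..b, H x L) +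
        Fk ρ f 0 x ε * ((∫ L in a..b, K ((L : ℂ) - c0 x)) - 1)) + Fk ρ f 0 x ε) q =
      iteratedFDeriv ℝ j (fun x => (∫ L in a..b, H x L) +
        Fk ρ f 0 x ε * ((∫ L in a..b, K ((L : ℂ) - c0 x)) - 1)) q +
      iteratedFDeriv ℝ j (fun x => Fk ρ f 0 x ε) q :=
    iteratedFDeriv_add_apply (𝕜 := ℝ) (i := j) (z1.add z2) z3
  have y3 : iteratedFDeriv ℝ j (fun x => (∫ L in a..b, H x L) +
        Fk ρ f 0 x ε * ((∫ L in a..b, K ((L : ℂ) - c0 x)) - 1)) q =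
      iteratedFDeriv ℝ j (fun x => ∫ L in a..b, H x L) q +
      iteratedFDeriv ℝ j (fun x => Fk ρ f 0 x ε *
        ((∫ L in a..b, K ((L : ℂ) - c0 x)) - 1)) q :=
    iteratedFDeriv_add_apply (𝕜 := ℝ) (i := j) z1 z2
  have y4 : iteratedFDeriv ℝ j (fun x => f (x + (ε : ℂ) • nu ρ x)) q =
      iteratedFDeriv ℝ j (fun x => Fk ρ f 0 x ε) q := by
    congr 1
    funext x
    exact (fk_zero ρ f x ε).symm
  rw [y1, y2, y4, add_sub_cancel_right, y3]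
  refine (norm_add_le _ _).trans ((add_le_add hfirst hsecond).trans ?_)
  have q1 : 2 ^ k0 * (|C3| * (2 * δ1 + 2 * |C0| * (ε / r))) * 2 + 2 ^ k0 * (|C0| * (Ck * ε)) =
      4 * (2 ^ k0 * |C3|) * δ1 + M * ε := by
    rw [hM]
    field_simp
    ring
  rw [q1]
  have q2 : 4 * (2 ^ k0 * |C3|) * δ1 ≤ δ / 2 := by
    have q3 : (8 * 2 ^ k0 * (|C3| + 1)) * δ1 = δ := by
      rw [hδ1]
      field_simp
    have q4 : 0 ≤ (2 : ℝ) ^ k0 * δ1 := by positivity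
    have q4' : 4 * (2 ^ k0 * |C3|) * δ1 = ((8 * 2 ^ k0 * (|C3| + 1)) * δ1) / 2 -
        4 * (2 ^ k0 * δ1) := by ring
    rw [q4', q3]
    linarith
  have q5 : M * ε ≤ δ / 2 := by
    rw [lt_div_iff₀ (by linarith)] at hεM
    have q6 : M * ε = (ε * (2 * (M + 1))) / 2 - ε := by ring
    rw [q6]
    linarith
  linarith

end Pool.Agent.AK.H51
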