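import Pool.Agent.Helper51_AK.Base

/-!
# AK module E4a, part 1: the mass of the kernel in the window
-/

set_option autoImplicit false

namespace Pool.Agent.AK.H51

open Complex MeasureTheory

theorem W_deriv {K : ℂ → ℂ} (hK : Differentiable ℂ K) (a b : ℝ) (z : ℂ) :
    HasDerivAt (fun z : ℂ => ∫ L in a..b, K ((L : ℂ) - z))
      (-(K ((b : ℂ) - z) - K ((a : ℂ) - z))) z := by
  have hKc : Continuous K := hK.continuous
  have hK' : Continuous (deriv K) := by
    have : ContDiff ℂ 2 K := hK.contDiff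
    exact this.continuous_deriv (by norm_num)
  obtain ⟨M, hM⟩ : ∃ M : ℝ, ∀ L ∈ Set.uIcc a b, ∀ w ∈ Metric.closedBall z 1,
      ‖deriv K ((L : ℂ) - w)‖ ≤ M := by
    have hc : IsCompact (Set.uIcc a b ×ˢ Metric.closedBall z 1) :=
      isCompact_uIcc.prod (isCompact_closedBall z 1)
    have hf : Continuous (fun y : ℝ × ℂ => deriv K ((y.1 : ℂ) - y.2)) :=
      hK'.comp ((continuous_ofReal.comp continuous_fst).sub continuous_snd)
    obtain ⟨M, hM⟩ := hc.exists_bound_of_continuousOn hf.continuousOn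
    exact ⟨M, fun L hL w hw => hM (L, w) ⟨hL, hw⟩⟩
  have h1 := intervalIntegral.hasDerivAt_integral_of_dominated_loc_of_deriv_le
    (μ := volume) (a := a) (b := b) (F := fun (z : ℂ) (L : ℝ) => K ((L : ℂ) - z))
    (F' := fun (z : ℂ) (L : ℝ) => -deriv K ((L : ℂ) - z)) (x₀ := z)
    (s := Metric.closedBall z 1) (bound := fun _ => M)
    (Metric.closedBall_mem_nhds z one_pos)
    (Filter.Eventually.of_forall fun w =>
      (hKc.comp (continuous_ofReal.sub continuous_const)).aestronglyMeasurable)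
    ((hKc.comp (continuous_ofReal.sub continuous_const)).intervalIntegrable a b)
    (hK'.comp (continuous_ofReal.sub continuous_const)).neg.aestronglyMeasurable
    (Filter.Eventually.of_forall fun L hL w hw => by
      rw [norm_neg]
      exact hM L (Set.uIoc_subset_uIcc hL) w hw)
    intervalIntegrable_const
    (Filter.Eventually.of_forall fun L _ w _ => by
      have h2 : HasDerivAt (fun w : ℂ => (L : ℂ) - w) (-1) w := by
        simpa using (hasDerivAt_id w).const_sub (L : ℂ)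
      have h3 := (hK ((L : ℂ) - w)).hasDerivAt.comp w h2
      rw [mul_neg_one] at h3
      exact h3)
  have h4 : ∫ L in a..b, -deriv K ((L : ℂ) - z) = -(K ((b : ℂ) - z) - K ((a : ℂ) - z)) := by
    rw [intervalIntegral.integral_neg]
    congr 1
    refine intervalIntegral.integral_eq_sub_of_hasDerivAt (f := fun L : ℝ => K ((L : ℂ) - z))
      (fun L _ => ?_) ((hK'.comp (continuous_ofReal.sub continuous_const)).intervalIntegrable a b)
    have h5 : HasDerivAt (fun w : ℂ => K (w - z)) (deriv K ((L : ℂ) - z)) (L : ℂ) := by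
      have h6 := (hK ((L : ℂ) - z)).hasDerivAt.comp (L : ℂ) ((hasDerivAt_id (L : ℂ)).sub_const z)
      rw [mul_one] at h6
      exact h6
    exact h5.comp_ofReal
  have h7 := h1.2
  rw [h4] at h7
  exact h7

theorem kap_fderiv {K : ℂ → ℂ} (hK : Differentiable ℂ K) (a b : ℝ) {c0 : C2 → ℂ} {x : C2}
    (hc : DifferentiableAt ℝ c0 x) :
    HasFDerivAt (𝕜 := ℝ) (fun x => ∫ L in a..b, K ((L : ℂ) - c0 x))
      ((-(K ((b : ℂ) - c0 x) - K ((a : ℂ) - c0 x))) • fderiv ℝ c0 x) x := by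
  have h1 := (W_deriv hK a b (c0 x)).hasFDerivAt.restrictScalars ℝ
  have h2 := h1.comp x hc.hasFDerivAt
  have e : ((-(K ((b : ℂ) - c0 x) - K ((a : ℂ) - c0 x))) • fderiv ℝ c0 x) =
      (ContinuousLinearMap.restrictScalars ℝ (ContinuousLinearMap.toSpanSingleton ℂ
        (-(K ((b : ℂ) - c0 x) - K ((a : ℂ) - c0 x))))).comp (fderiv ℝ c0 x) := by
    ext v
    simp [mul_comm]
  rw [e]
  exact h2

theorem log_facts {ε t0 : ℝ} (hε : 0 < ε) (hεt : ε < t0) (ht1 : t0 ≤ 1) :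
    Real.log ε ≤ 0 ∧ 0 ≤ Real.log (t0 / ε) ∧ Real.exp (Real.log ε) = ε ∧
      Real.exp (-Real.log (t0 / ε)) = ε / t0 ∧ Real.exp (-|Real.log ε|) = ε ∧
      Real.exp (-|Real.log (t0 / ε)|) = ε / t0 := by
  have ht0 : 0 < t0 := hε.trans hεt
  have h1 : Real.log ε ≤ 0 := Real.log_nonpos hε.le (by linarith)
  have h2 : 0 ≤ Real.log (t0 / ε) := Real.log_nonneg (by rw [le_div_iff₀ hε]; linarith)
  have h3 : Real.exp (-Real.log (t0 / ε)) = ε / t0 := by
    rw [Real.exp_neg, Real.exp_log (by positivity), inv_div]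
  refine ⟨h1, h2, Real.exp_log hε, h3, ?_, ?_⟩
  · rw [abs_of_nonpos h1, neg_neg, Real.exp_log hε]
  · rw [abs_of_nonneg h2, h3]

/-- the mass outside of the window -/
theorem tail_bd {g : ℝ → ℂ} {C a b : ℝ} (hg : Integrable g)
    (hb : ∀ L, ‖g L‖ ≤ C * Real.exp (-|L|)) (ha : a ≤ 0) (hb0 : 0 ≤ b) :
    ‖(∫ L in a..b, g L) - ∫ L, g L‖ ≤ C * (Real.exp a + Real.exp (-b)) := by
  have h1 : (∫ L, g L) = (∫ L in Set.Iic a, g L) + ((∫ L in a..b, g L) + ∫ L in Set.Ioi b, g L) := by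
    rw [intervalIntegral.integral_interval_add_Ioi hg.integrableOn hg.integrableOn,
      intervalIntegral.integral_Iic_add_Ioi hg.integrableOn hg.integrableOn]
  have h2 : ‖∫ L in Set.Iic a, g L‖ ≤ C * Real.exp a := by
    have h3 : ∫ L in Set.Iic a, C * Real.exp L = C * Real.exp a := by
      rw [integral_const_mul, integral_exp_Iic]
    rw [← h3]
    refine norm_integral_le_of_norm_le ((integrableOn_exp_Iic a).const_mul C) ?_
    filter_upwards [ae_restrict_mem measurableSet_Iic] with L hL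
    have h4 := hb L
    rw [abs_of_nonpos (le_trans hL ha), neg_neg] at h4
    exact h4
  have h5 : ‖∫ L in Set.Ioi b, g L‖ ≤ C * Real.exp (-b) := by
    have h3 : ∫ L in Set.Ioi b, C * Real.exp (-L) = C * Real.exp (-b) := by
      rw [integral_const_mul, integral_exp_neg_Ioi]
    rw [← h3]
    refine norm_integral_le_of_norm_le ((integrableOn_exp_neg_Ioi b).const_mul C) ?_
    filter_upwards [ae_restrict_mem measurableSet_Ioi] with L hL
    have h4 := hb L
    rw [abs_of_nonneg (hb0.trans (le_of_lt hL))] at h4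
    exact h4
  have h6 : (∫ L in a..b, g L) - ∫ L, g L =
      -((∫ L in Set.Iic a, g L) + ∫ L in Set.Ioi b, g L) := by
    rw [h1]
    ring
  rw [h6, norm_neg, mul_add]
  exact (norm_add_le _ _).trans (add_le_add h2 h5)

/-- the mass in the window is close to `1`, with all derivatives -/
theorem kap_bd (h3a : F3aStmt) (h3 : L3Stmt) (h4 : L4Stmt) {V : Set C2} (hVo : IsOpen V)
    (hVc : IsCompact (closure V)) {k0 : ℕ} {c0 : C2 → ℂ} (hc0 : CS V (k0 + 1) c0) {K : ℂ → ℂ}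
    (hK : Dec K) (hm : (∫ x : ℝ, K (x : ℂ)) = 1) {t0 : ℝ} (ht0 : 0 < t0) (ht1 : t0 ≤ 1) :
    ∃ C : ℝ, 0 ≤ C ∧ ∀ ε : ℝ, 0 < ε → ε < t0 →
      ContDiffOn ℝ (k0 : WithTop ℕ∞)
        (fun x => (∫ L in (Real.log ε)..(Real.log (t0 / ε)), K ((L : ℂ) - c0 x)) - 1) V ∧
      ∀ j ≤ k0, ∀ q ∈ V, ‖iteratedFDeriv ℝ j
        (fun x => (∫ L in (Real.log ε)..(Real.log (t0 / ε)), K ((L : ℂ) - c0 x)) - 1) q‖ ≤
          C * ε := by
  obtain ⟨C3, hC3⟩ := h3 V (k0 + 1) c0 hVc hc0 K hK 1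
  obtain ⟨Cc, hCc0, hCc⟩ := bdd_of_cs hVc hc0
  obtain ⟨U, hU, hVU, hd⟩ := hc0
  have hsub : V ⊆ U := subset_closure.trans hVU
  have hbd : ∀ j ≤ k0 + 1, ∀ (L : ℝ), ∀ q ∈ V,
      ‖iteratedFDeriv ℝ j (fun x => K ((L : ℂ) - c0 x)) q‖ ≤ |C3| * Real.exp (-|L|) := by
    intro j hj L q hq
    have h5 := hC3 j hj L q hq
    rw [Nat.cast_one, one_mul] at h5
    exact h5.trans (mul_le_mul_of_nonneg_right (le_abs_self _) (Real.exp_pos _).le)
  have hint := h3a.2.2.2.2.2.2.1 K hK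
  refine ⟨2 ^ k0 * (|C3| * (1 + 1 / t0) * (1 + Cc)), by positivity, fun ε hε hεt => ?_⟩
  obtain ⟨g1, g2, g3, g4, g5, g6⟩ := log_facts hε hεt ht1
  have hKd : ContDiff ℝ SM K := by
    have : ContDiff ℂ SM K := hK.1.contDiff
    exact this.restrict_scalars ℝ
  have hKL : ∀ L : ℝ, ContDiffOn ℝ ((k0 + 1 : ℕ) : WithTop ℕ∞)
      (fun x => K ((L : ℂ) - c0 x)) U := by
    intro L
    have h6 : ContDiffOn ℝ ((k0 + 1 : ℕ) : WithTop ℕ∞) (fun x => (L : ℂ) - c0 x) U :=
      contDiffOn_const.sub hd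
    exact (hKd.of_le (WithTop.coe_le_coe.2 le_top)).comp_contDiffOn h6
  have hcd : ContDiffOn ℝ ((k0 + 1 : ℕ) : WithTop ℕ∞)
      (fun x => ∫ L in (Real.log ε)..(Real.log (t0 / ε)), K ((L : ℂ) - c0 x)) V := by
    refine (h4 V _ _ (fun x L => K ((L : ℂ) - c0 x)) (U ×ˢ Set.univ) (k0 + 1) hVo
      (g1.trans g2) (hU.prod isOpen_univ) (fun y hy => ⟨hsub hy.1, trivial⟩) ?_).1
    have h7 : ContDiffOn ℝ ((k0 + 1 : ℕ) : WithTop ℕ∞)
        (fun y : C2 × ℝ => (y.2 : ℂ) - c0 y.1) (U ×ˢ Set.univ) := by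
      refine ContDiffOn.sub ?_ ?_
      · exact (Complex.ofRealCLM.contDiff.comp contDiff_snd).contDiffOn
      · exact hd.comp contDiff_fst.contDiffOn (fun y hy => hy.1)
    exact (hKd.of_le (WithTop.coe_le_coe.2 le_top)).comp_contDiffOn h7
  have hle : ((k0 : ℕ) : WithTop ℕ∞) ≤ ((k0 + 1 : ℕ) : WithTop ℕ∞) := by
    exact_mod_cast Nat.le_succ k0
  refine ⟨(hcd.of_le hle).sub contDiffOn_const, fun j hj q hq => ?_⟩
  have hC3n : 0 ≤ |C3| := abs_nonneg _
  have hε' : ε + ε / t0 = (1 + 1 / t0) * ε := by ring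
  cases j with
  | zero =>
    rw [norm_iteratedFDeriv_zero]
    obtain ⟨i1, i2⟩ := hint (c0 q)
    have h8 := tail_bd (g := fun L : ℝ => K ((L : ℂ) - c0 q)) (C := |C3|) (a := Real.log ε)
      (b := Real.log (t0 / ε)) i1 (fun L => by
        have := hbd 0 (Nat.zero_le _) L q hq
        rw [norm_iteratedFDeriv_zero] at this
        exact this) g1 g2
    rw [i2, hm, g3, g4, hε'] at h8
    refine h8.trans ?_
    have h9 : (1 : ℝ) ≤ 2 ^ k0 := one_le_pow₀ (by norm_num)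
    have h10 : 0 ≤ |C3| * ((1 + 1 / t0) * ε) := by positivity
    calc |C3| * ((1 + 1 / t0) * ε) ≤ 2 ^ k0 * (|C3| * ((1 + 1 / t0) * ε)) :=
          le_mul_of_one_le_left h10 h9
      _ ≤ 2 ^ k0 * (|C3| * ((1 + 1 / t0) * ε) * (1 + Cc)) := by
          refine mul_le_mul_of_nonneg_left ?_ (by positivity)
          exact le_mul_of_one_le_right h10 (by linarith)
      _ = 2 ^ k0 * (|C3| * (1 + 1 / t0) * (1 + Cc)) * ε := by ring
  | succ i =>
    have h11 : iteratedFDeriv ℝ (i + 1) (fun x =>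
        (∫ L in (Real.log ε)..(Real.log (t0 / ε)), K ((L : ℂ) - c0 x)) - 1) q =
        iteratedFDeriv ℝ (i + 1) (fun x =>
          ∫ L in (Real.log ε)..(Real.log (t0 / ε)), K ((L : ℂ) - c0 x)) q := by
      have h12 : ((i + 1 : ℕ) : WithTop ℕ∞) ≤ ((k0 + 1 : ℕ) : WithTop ℕ∞) := by
        exact_mod_cast (by omega : i + 1 ≤ k0 + 1)
      have h13 := iteratedFDeriv_sub_apply (𝕜 := ℝ) (i := i + 1)
        (f := fun x => ∫ L in (Real.log ε)..(Real.log (t0 / ε)), K ((L : ℂ) - c0 x))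
        (g := fun _ => (1 : ℂ)) (x := q)
        ((hcd.contDiffAt (hVo.mem_nhds hq)).of_le h12) contDiffAt_const
      rw [iteratedFDeriv_succ_const] at h13
      rw [Pi.zero_apply, sub_zero] at h13
      exact h13
    rw [h11, ← norm_iteratedFDeriv_fderiv]
    have h14 : iteratedFDeriv ℝ i (fderiv ℝ (fun x =>
        ∫ L in (Real.log ε)..(Real.log (t0 / ε)), K ((L : ℂ) - c0 x))) q =
        iteratedFDeriv ℝ i (fun x => (-(K ((Real.log (t0 / ε) : ℝ) - c0 x) -
          K ((Real.log ε : ℝ) - c0 x))) • fderiv ℝ c0 x) q := by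
      refine iter_congr hVo (fun x hx => ?_) hq i
      have h15 : DifferentiableAt ℝ c0 x :=
        (hd.contDiffAt (hU.mem_nhds (hsub hx))).differentiableAt (by simp)
      exact (kap_fderiv hK.1 _ _ h15).fderiv
    rw [h14]
    have hle' : ((k0 : ℕ) : WithTop ℕ∞) ≤ ((k0 + 1 : ℕ) : WithTop ℕ∞) := hle
    have hu : ContDiffOn ℝ (k0 : WithTop ℕ∞) (fun x => -(K ((Real.log (t0 / ε) : ℝ) - c0 x) -
        K ((Real.log ε : ℝ) - c0 x))) V :=
      ((((hKL _).mono hsub).of_le hle').sub (((hKL _).mono hsub).of_le hle')).neg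
    have hv : ContDiffOn ℝ (k0 : WithTop ℕ∞) (fderiv ℝ c0) V :=
      (hd.fderiv_of_isOpen hU (by push_cast; exact le_rfl)).mono hsub
    have hb1 : ∀ l ≤ i, ‖iteratedFDeriv ℝ l (fun x => -(K ((Real.log (t0 / ε) : ℝ) - c0 x) -
        K ((Real.log ε : ℝ) - c0 x))) q‖ ≤ |C3| * ((1 + 1 / t0) * ε) := by
      intro l hl
      have h16 : ((l : ℕ) : WithTop ℕ∞) ≤ ((k0 + 1 : ℕ) : WithTop ℕ∞) := by
        exact_mod_cast (by omega : l ≤ k0 + 1)
      have h17 := iteratedFDeriv_sub_apply (𝕜 := ℝ) (i := l)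
        (f := fun x => K ((Real.log (t0 / ε) : ℝ) - c0 x))
        (g := fun x => K ((Real.log ε : ℝ) - c0 x)) (x := q)
        (((hKL _).contDiffAt (hU.mem_nhds (hsub hq))).of_le h16)
        (((hKL _).contDiffAt (hU.mem_nhds (hsub hq))).of_le h16)
      have h18 : iteratedFDeriv ℝ l (fun x => -(K ((Real.log (t0 / ε) : ℝ) - c0 x) -
          K ((Real.log ε : ℝ) - c0 x))) q = -(iteratedFDeriv ℝ l
            (fun x => K ((Real.log (t0 / ε) : ℝ) - c0 x)) q -
            iteratedFDeriv ℝ l (fun x => K ((Real.log ε : ℝ) - c0 x)) q) := by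
        rw [← h17]
        exact iteratedFDeriv_neg_apply
      rw [h18, norm_neg]
      refine (norm_sub_le _ _).trans ?_
      have h19 := hbd l (by omega) (Real.log (t0 / ε)) q hq
      have h20 := hbd l (by omega) (Real.log ε) q hq
      rw [g6] at h19
      rw [g5] at h20
      calc _ ≤ |C3| * (ε / t0) + |C3| * ε := add_le_add h19 h20
        _ = |C3| * ((1 + 1 / t0) * ε) := by ring
    have hb2 : ∀ l ≤ i, ‖iteratedFDeriv ℝ l (fderiv ℝ c0) q‖ ≤ Cc := by
      intro l hl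
      rw [norm_iteratedFDeriv_fderiv]
      exact hCc (l + 1) (by omega) q hq
    have h21 := smul_bd hVo hu hv hq (j := i) (by omega) hb1 hb2
    refine h21.trans ?_
    have h22 : (2 : ℝ) ^ i ≤ 2 ^ k0 := pow_le_pow_right₀ (by norm_num) (by omega)
    have h10 : 0 ≤ |C3| * ((1 + 1 / t0) * ε) := by positivity
    calc (2 : ℝ) ^ i * (|C3| * ((1 + 1 / t0) * ε) * Cc)
        ≤ 2 ^ k0 * (|C3| * ((1 + 1 / t0) * ε) * Cc) :=
          mul_le_mul_of_nonneg_right h22 (by positivity)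
      _ ≤ 2 ^ k0 * (|C3| * ((1 + 1 / t0) * ε) * (1 + Cc)) := by
          refine mul_le_mul_of_nonneg_left ?_ (by positivity)
          exact mul_le_mul_of_nonneg_left (by linarith) h10
      _ = 2 ^ k0 * (|C3| * (1 + 1 / t0) * (1 + Cc)) * ε := by ring

end Pool.Agent.AK.H51
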